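import Pool.Agent.Helper54_Exc.Stmts

/-! STE and BAS: the step and the base of the recursion. -/

namespace Pool.Agent.Helper54Exc.H75

open Filter Topology Pool.Agent.Helper28Excl Pool.Agent.Helper54Exc

/-- The squared increment along the jump of side `c`, seen from the other configuration. -/
noncomputable def Ec (c : Bool) (h : C(Config, ℝ)) (σ τ : ℤ) : C(Config × Config, ℝ) :=
  pull (ot c) (if c then Esq h σ τ else Esq h τ σ)

lemma Ec_nonneg (c : Bool) (h : C(Config, ℝ)) (σ τ : ℤ) (z : Config × Config) :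
    0 ≤ Ec c h σ τ z := by
  unfold Ec
  rw [pull_apply]
  split_ifs
  · exact Esq_nonneg _ _ _ _
  · exact Esq_nonneg _ _ _ _

lemma abs_le_Ec (c : Bool) (h : C(Config, ℝ)) (σ τ : ℤ) {η : ℝ} (hη : 0 < η)
    (z : Config × Config) :
    |h (jc c σ τ (ot c z)) - h (ot c z)| ≤ η + 1 / (4 * η) * Ec c h σ τ z := by
  refine (abs_le_quad hη _).trans (le_of_eq ?_)
  congr 2
  cases c <;> rfl

/-- Sum of the squared increments over a product of two sets. -/
lemma esum {k : Kern} {ν : C(Config × Config, ℝ) →ₗ[ℝ] ℝ} (hν : IsPos ν) (c : Bool)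
    (h : C(Config, ℝ)) {N : ℕ} {S T : Finset ℤ} (hS : S ⊆ box N) (hT : T ⊆ box N) {q : ℝ}
    (hq : ∀ σ ∈ S, ∀ τ ∈ T, q ≤ k.p (if c then τ - σ else σ - τ)) :
    q * ∑ σ ∈ S, ∑ τ ∈ T, ν (Ec c h σ τ)
      ≤ ∑ a ∈ box N ×ˢ box N, k.p (a.2 - a.1) * ν (pull (ot c) (Esq h a.1 a.2)) := by
  have hnn : ∀ a ∈ box N ×ˢ box N, 0 ≤ k.p (a.2 - a.1) * ν (pull (ot c) (Esq h a.1 a.2)) :=
    fun a _ => mul_nonneg (k.nonneg _) (hν.nonneg fun z => Esq_nonneg _ _ _ _)
  cases c
  · rw [Finset.sum_comm, ← Finset.sum_product' (f := fun τ σ => ν (Ec false h σ τ)),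
      Finset.mul_sum]
    refine le_trans (Finset.sum_le_sum fun a ha => ?_)
      (Finset.sum_le_sum_of_subset_of_nonneg (Finset.product_subset_product hT hS)
        fun a ha _ => hnn a ha)
    rw [Finset.mem_product] at ha
    have h1 := hq a.2 ha.2 a.1 ha.1
    simp only [Bool.false_eq_true, if_false] at h1
    exact mul_le_mul_of_nonneg_right h1 (hν.nonneg fun z => Esq_nonneg _ _ _ _)
  · rw [← Finset.sum_product' (f := fun σ τ => ν (Ec true h σ τ)), Finset.mul_sum]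
    refine le_trans (Finset.sum_le_sum fun a ha => ?_)
      (Finset.sum_le_sum_of_subset_of_nonneg (Finset.product_subset_product hS hT)
        fun a ha _ => hnn a ha)
    rw [Finset.mem_product] at ha
    have h1 := hq a.1 ha.1 a.2 ha.2
    simp only [if_true] at h1
    exact mul_le_mul_of_nonneg_right h1 (hν.nonneg fun z => Esq_nonneg _ _ _ _)

/-- The window function of side `c`. -/
noncomputable def Wn (k : Kern) (R N : ℕ) (t : ℝ) (c : Bool) : C(Config × Config, ℝ) :=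
  sgn c • (pull (ot c) (hR k R N t) - pull (bs c) (hR k R N t))

lemma nu_Bd {k : Kern} {ν : C(Config × Config, ℝ) →ₗ[ℝ] ℝ} (h : OneDisc k ν) (R N : ℕ) :
    ν (Bd R N) = ν (kap R) := by
  unfold Bd
  rw [map_add, map_add, map_smul, map_smul, h.exc, map_sum]
  simp only [h.sm, Finset.sum_const_zero, smul_zero, add_zero]

lemma nu_const {ν : C(Config × Config, ℝ) →ₗ[ℝ] ℝ} (h1 : ν 1 = 1) (a : ℝ) :
    ν (a • (1 : C(Config × Config, ℝ))) = a := by
  rw [map_smul, h1, smul_eq_mul, mul_one]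

/-- The integrated step inequality. -/
lemma step_int (hp : PntStmt) {k : Kern} {ν : C(Config × Config, ℝ) →ₗ[ℝ] ℝ} (hν : OneDisc k ν)
    {R N : ℕ} {s t r ℓ η : ℝ} (hRN : R < N) (hs : 0 ≤ s) (hst : s ≤ t) (ht : 0 < t) (hr : 0 < r)
    (hl : 0 < ℓ) (hη : 0 < η) (hpr : ∀ n : ℕ, 1 ≤ n → n ≤ 2 * R → r ≤ k.p (-(n : ℤ)))
    {c : Bool} {σ τ : ℤ} (hσ : σ ∈ box N) (hτ : τ ∈ box N) (hσR : (R : ℤ) < |σ|)
    (hτR : (R : ℝ) + ℓ ≤ |(τ : ℝ)|) (hστ : ℓ ≤ |((τ - σ : ℤ) : ℝ)|) :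
    ν (Q k c N t τ) ≤ ν (Q k (!c) N s σ) + 8 * mom k * s / ℓ
      + (η + 1 / (4 * η) * ν (Ec c (hR k R N t) σ τ))
      + 2 * (1 - ν (Wn k R N t c)) + 2 / (r * t) + ν (1 - vac (!c) σ) + ν (kap R) := by
  have h1 := hν.inv.2.1
  have hF : ν (Q k c N t τ) ≤ ν (Q k (!c) N s σ
      + (8 * mom k * s / ℓ + η + 2 + 2 / (r * t)) • (1 : C(Config × Config, ℝ))
      + (1 / (4 * η)) • Ec c (hR k R N t) σ τ + (-2 : ℝ) • Wn k R N t c
      + (1 - vac (!c) σ) + Bd R N) := by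
    refine hν.inv.1.mono fun z => ?_
    have h2 := hp.step k R N s t r ℓ hRN hs hst ht hr hl hpr c σ τ hσ hτ hσR hτR hστ z
    have h3 := abs_le_Ec c (hR k R N t) σ τ hη z
    have h4 : Wn k R N t c z = sgn c * (hR k R N t (ot c z) - hR k R N t (bs c z)) := rfl
    simp only [ContinuousMap.add_apply, ContinuousMap.sub_apply, ContinuousMap.smul_apply,
      ContinuousMap.one_apply, smul_eq_mul, mul_one, h4]
    linarith
  rw [map_add, map_add, map_add, map_add, map_add, nu_const h1, nu_Bd hν, map_smul, map_smul,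
    smul_eq_mul, smul_eq_mul] at hF
  linarith

/-- The integrated base inequality. -/
lemma base_int (hp : PntStmt) {k : Kern} {ν : C(Config × Config, ℝ) →ₗ[ℝ] ℝ} (hν : OneDisc k ν)
    {R N : ℕ} {t r η : ℝ} (hRN : R < N) (ht : 0 < t) (hr : 0 < r)
    (hη : 0 < η) (hpr : ∀ n : ℕ, 1 ≤ n → n ≤ 2 * R → r ≤ k.p (-(n : ℤ)))
    {c : Bool} {τ : ℤ} (hτ : τ ∈ box N) (hτR : (R : ℤ) < |τ|) :
    ν (Q k c N t τ) ≤ ((2 * R + 1) * η + 1 / (4 * η) * ∑ σ ∈ box R, ν (Ec c (hR k R N t) σ τ))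
      + 2 * (1 - ν (Wn k R N t c)) + 2 / (r * t) + ν (kap R) := by
  have h1 := hν.inv.2.1
  have hF : ν (Q k c N t τ) ≤ ν (
      ((2 * R + 1) * η + 2 + 2 / (r * t)) • (1 : C(Config × Config, ℝ))
      + (1 / (4 * η)) • ∑ σ ∈ box R, Ec c (hR k R N t) σ τ + (-2 : ℝ) • Wn k R N t c
      + Bd R N) := by
    refine hν.inv.1.mono fun z => ?_
    have h2 := hp.base k R N t r hRN ht hr hpr c τ hτ hτR z
    have h3 : ∑ σ ∈ box R, |hR k R N t (jc c σ τ (ot c z)) - hR k R N t (ot c z)|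
        ≤ (2 * R + 1) * η + 1 / (4 * η) * ∑ σ ∈ box R, Ec c (hR k R N t) σ τ z := by
      refine (Finset.sum_le_sum fun σ _ => abs_le_Ec c (hR k R N t) σ τ hη z).trans ?_
      rw [Finset.sum_add_distrib, Finset.sum_const, nsmul_eq_mul, card_box, Finset.mul_sum]
    have h4 : Wn k R N t c z = sgn c * (hR k R N t (ot c z) - hR k R N t (bs c z)) := rfl
    simp only [ContinuousMap.add_apply, ContinuousMap.smul_apply,
      ContinuousMap.one_apply, ContinuousMap.coe_sum, Finset.sum_apply,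
      smul_eq_mul, mul_one, h4]
    linarith
  rw [map_add, map_add, map_add, nu_const h1, nu_Bd hν, map_smul, map_smul, map_sum,
    smul_eq_mul, smul_eq_mul] at hF
  linarith

lemma card_Sc (c : Bool) (n : ℕ) : ((Sc c n).card : ℝ) = n + 1 := by
  cases c
  · simp only [Sc, Bool.false_eq_true, if_false]
    rw [Int.card_Icc]
    have : (2 * (n : ℤ) + 1 - n).toNat = n + 1 := by omega
    rw [this]
    push_cast
    ring
  · simp only [Sc, if_true]
    rw [Int.card_Icc]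
    have : (-(n : ℤ) + 1 - -(2 * (n : ℤ))).toNat = n + 1 := by omega
    rw [this]
    push_cast
    ring

lemma mem_Sc_true {n : ℕ} {x : ℤ} : x ∈ Sc true n ↔ -(2 * n : ℤ) ≤ x ∧ x ≤ -(n : ℤ) := by
  simp only [Sc, if_true, Finset.mem_Icc]

lemma mem_Sc_false {n : ℕ} {x : ℤ} : x ∈ Sc false n ↔ (n : ℤ) ≤ x ∧ x ≤ (2 * n : ℤ) := by
  simp only [Sc, Bool.false_eq_true, if_false, Finset.mem_Icc]

lemma Sc_abs {c : Bool} {n : ℕ} {x : ℤ} (h : x ∈ Sc c n) : (n : ℤ) ≤ |x| ∧ |x| ≤ 2 * n := by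
  cases c
  · rw [mem_Sc_false] at h
    rw [abs_of_nonneg (by omega)]
    exact h
  · rw [mem_Sc_true] at h
    rw [abs_of_nonpos (by omega)]
    omega

lemma Sc_sub_box {c : Bool} {n N : ℕ} (h : 2 * n ≤ N) : Sc c n ⊆ box N := by
  intro x hx
  rw [mem_box]
  have := (Sc_abs hx).2
  have h' : (2 * n : ℤ) ≤ N := by exact_mod_cast h
  omega

/-- Lower bound of the kernel. -/
lemma kern_lb {k : Kern} {c0 β : ℝ} (hc0 : 0 < c0) (hβ : 0 < β)
    (hk : ∀ n : ℕ, 1 ≤ n → c0 * (n : ℝ) ^ (-β) ≤ k.p (-(n : ℤ))) {x : ℤ} {M : ℝ}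
    (hx : x < 0) (hxM : -(x : ℝ) ≤ M) : c0 * M ^ (-β) ≤ k.p x := by
  obtain ⟨n, hn⟩ : ∃ n : ℕ, x = -(n : ℤ) := ⟨x.natAbs, by omega⟩
  have hn1 : 1 ≤ n := by omega
  rw [hn]
  refine le_trans ?_ (hk n hn1)
  refine mul_le_mul_of_nonneg_left ?_ hc0.le
  have h1 : (n : ℝ) ≤ M := by
    rw [hn] at hxM
    push_cast at hxM
    linarith
  have h2 : (1 : ℝ) ≤ n := by exact_mod_cast hn1
  exact Real.rpow_le_rpow_of_nonpos (by linarith) h1 (by linarith)

/-- Scaling of the energy term. -/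
lemma scale_q {c0 β K t X n : ℝ} (hc0 : 0 < c0) (hn : 0 < n)
    (h : K * n ^ (β - 1) ≤ t * X) :
    K * (c0 * 4 ^ (-β)) ≤ t * X * n * (c0 * (4 * n) ^ (-β)) := by
  have h1 : (4 * n) ^ (-β) = 4 ^ (-β) * n ^ (-β) := Real.mul_rpow (by norm_num) hn.le
  have h2 : n ^ (β - 1) * (n * n ^ (-β)) = 1 := by
    have e1 : n * n ^ (-β) = n ^ (1 - β) := by
      rw [show (1 : ℝ) - β = 1 + -β by ring, Real.rpow_add hn, Real.rpow_one]
    rw [e1, ← Real.rpow_add hn]
    have : β - 1 + (1 - β) = 0 := by ring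
    rw [this, Real.rpow_zero]
  have h3 : 0 < n * n ^ (-β) := mul_pos hn (Real.rpow_pos_of_pos hn _)
  have h4 := mul_le_mul_of_nonneg_right h h3.le
  rw [mul_assoc K, h2, mul_one] at h4
  have h5 : 0 < c0 * (4 : ℝ) ^ (-β) := mul_pos hc0 (Real.rpow_pos_of_pos (by norm_num) _)
  have h6 := mul_le_mul_of_nonneg_right h4 h5.le
  refine h6.trans (le_of_eq ?_)
  rw [h1]
  ring

lemma en_small {E q t X n η ε W B K : ℝ} (hq : 0 < q) (ht : 0 < t) (hη : 0 < η)
    (hε : 0 < ε) (hE : q * E ≤ W / t) (hsc : K * B ≤ t * X * n * q)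
    (hK : 16 * W ≤ 4 * η * ε * B * K) : 1 / (4 * η) * E ≤ ε / 16 * (X * n) := by
  have h1 : q * E * t ≤ W := by
    rw [le_div_iff₀ ht] at hE
    exact hE
  have h2 : 0 < 4 * η * ε := by positivity
  have h3 := mul_le_mul_of_nonneg_left hsc h2.le
  have h4 : 16 * (q * t * E) ≤ q * t * (4 * η * ε * (X * n)) := by
    nlinarith
  have h5 : 16 * E ≤ 4 * η * ε * (X * n) := by
    have h6 : 0 < q * t := mul_pos hq ht
    have h7 : q * t * (16 * E) ≤ q * t * (4 * η * ε * (X * n)) := by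
      linarith
    exact le_of_mul_le_mul_left h7 h6
  rw [div_mul_eq_mul_div, one_mul, div_le_iff₀ (by positivity)]
  nlinarith

/-- STE. -/
theorem ste (h1 : MarStmt) (h2 : PntStmt) : SteStmt := by
  intro k ν c0 β hc0 hβ hk hν ε hε
  have hmom := mom_nonneg k
  obtain ⟨R, hkapR⟩ := hν.kap (ε / 16) (by positivity)
  have hR0 : (0 : ℝ) ≤ R := Nat.cast_nonneg _
  set r : ℝ := c0 * (2 * R + 1 : ℝ) ^ (-β) with hrdef
  have hr : 0 < r := mul_pos hc0 (Real.rpow_pos_of_pos (by positivity) _)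
  have hpr : ∀ n : ℕ, 1 ≤ n → n ≤ 2 * R → r ≤ k.p (-(n : ℤ)) := by
    intro n hn hnR
    refine kern_lb hc0 hβ hk (by omega) ?_
    have : (n : ℝ) ≤ 2 * R := by exact_mod_cast hnR
    push_cast
    linarith
  obtain ⟨A, hA⟩ := hν.tail (ε / 16) (by positivity)
  set η : ℝ := ε / 16 with hη
  have hη0 : 0 < η := by positivity
  set B : ℝ := c0 * 4 ^ (-β) with hB
  have hB0 : 0 < B := mul_pos hc0 (Real.rpow_pos_of_pos (by norm_num) _)
  set W : ℝ := (2 * R + 1) ^ 2 with hW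
  set K : ℝ := max (max A (2 * R + 2)) (max (max (256 * mom k / ε) (32 / (r * ε)))
    (16 * W / (4 * η * ε * B))) with hK
  have hKA : (A : ℝ) ≤ K := (le_max_left _ _).trans (le_max_left _ _)
  have hKR : (2 * R + 2 : ℝ) ≤ K := (le_max_right _ _).trans (le_max_left _ _)
  have hKm : 256 * mom k / ε ≤ K :=
    ((le_max_left _ _).trans (le_max_left _ _)).trans (le_max_right _ _)
  have hKr : 32 / (r * ε) ≤ K :=
    ((le_max_right _ _).trans (le_max_left _ _)).trans (le_max_right _ _)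
  have hKW : 16 * W / (4 * η * ε * B) ≤ K := (le_max_right _ _).trans (le_max_right _ _)
  have hK1 : 1 ≤ K := by linarith
  refine ⟨K, hK1, ?_⟩
  intro c m n s t δ hKm' hKn hKt hs hst hKs hKe hδ hret
  have hm1 : (1 : ℝ) ≤ m := hK1.trans hKm'
  have hmn : (m : ℝ) ≤ n := by nlinarith
  have hn1 : (1 : ℝ) ≤ n := hm1.trans hmn
  have ht0 : 0 < t := by linarith
  have hn2R : (2 * R + 2 : ℝ) ≤ n := by linarith
  have hmR : (2 * R + 2 : ℝ) ≤ m := by linarith
  have hmR' : (R : ℤ) < m := by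
    have : (R : ℝ) < m := by linarith
    exact_mod_cast this
  have hAm : A ≤ m := by
    have : (A : ℝ) ≤ m := hKA.trans hKm'
    exact_mod_cast this
  have hen := h1.energy k ν hν.inv R t ht0
  have hwin := h1.window k ν hν R t (ε / 16) ht0 (by positivity)
  filter_upwards [hret, hen, hwin, eventually_ge_atTop (2 * n + 2 * m + R + 1)] with N e1 e2 e3 hN
  have hRN : R < N := by omega
  have hSn : Sc c n ⊆ box N := Sc_sub_box (by omega)
  have hSm : Sc (!c) m ⊆ box N := Sc_sub_box (by omega)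
  have hnW := e3 c
  -- the kernel on the pairs used
  set q : ℝ := c0 * (4 * n) ^ (-β) with hq
  have hq0 : 0 < q := mul_pos hc0 (Real.rpow_pos_of_pos (by positivity) _)
  have hker : ∀ σ ∈ Sc (!c) m, ∀ τ ∈ Sc c n, q ≤ k.p (if c then τ - σ else σ - τ) := by
    intro σ hσ τ hτ
    have hmn' : (m : ℤ) ≤ n := by
      exact_mod_cast hmn
    have hm1' : (1 : ℤ) ≤ m := by exact_mod_cast hm1
    cases c
    · simp only [Bool.not_false, mem_Sc_true, mem_Sc_false] at hσ hτ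
      simp only [Bool.false_eq_true, if_false]
      refine kern_lb hc0 hβ hk (by omega) ?_
      have : -(σ - τ) ≤ 4 * (n : ℤ) := by omega
      exact_mod_cast this
    · simp only [Bool.not_true, mem_Sc_true, mem_Sc_false] at hσ hτ
      simp only [if_true]
      refine kern_lb hc0 hβ hk (by omega) ?_
      have : -(τ - σ) ≤ 4 * (n : ℤ) := by omega
      exact_mod_cast this
  have hE := (esum hν.inv.1 c (hR k R N t) hSm hSn hker).trans (e2 c)
  have hsc := scale_q (X := (m : ℝ)) hc0 (by linarith : (0 : ℝ) < n) hKe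
  have hEs := en_small (W := W) hq0 ht0 hη0 hε hE hsc (by
    rw [div_le_iff₀ (by positivity)] at hKW
    linarith)
  -- the pointwise bound
  have hstep : ∀ σ ∈ Sc (!c) m, ∀ τ ∈ Sc c n, ν (Q k c N t τ) ≤ ν (Q k (!c) N s σ)
      + ε / 2 + 1 / (4 * η) * ν (Ec c (hR k R N t) σ τ) + ε / 16 := by
    intro σ hσ τ hτ
    have a1 := Sc_abs hσ
    have a2 := Sc_abs hτ
    have a3 : (n : ℝ) ≤ |(τ : ℝ)| := by exact_mod_cast a2.1
    have a4 : (n : ℤ) ≤ |τ - σ| := by
      have hm1' : (1 : ℤ) ≤ m := by exact_mod_cast hm1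
      cases c
      · simp only [Bool.not_false, mem_Sc_true, mem_Sc_false] at hσ hτ
        rw [abs_of_nonneg (by omega)]
        omega
      · simp only [Bool.not_true, mem_Sc_true, mem_Sc_false] at hσ hτ
        rw [abs_of_nonpos (by omega)]
        omega
    have a5 : (n : ℝ) ≤ |((τ - σ : ℤ) : ℝ)| := by exact_mod_cast a4
    have b := step_int h2 hν (ℓ := (n : ℝ) / 2) (η := η) (c := c) hRN hs hst ht0 hr (by linarith) hη0 hpr
      (hSm hσ) (hSn hτ) (lt_of_lt_of_le hmR' a1.1) (by linarith) (by linarith)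
    have c1 : 8 * mom k * s / ((n : ℝ) / 2) ≤ ε / 16 := by
      rw [div_le_iff₀ (by linarith)]
      rw [div_le_iff₀ hε] at hKm
      have d1 : 256 * mom k * s ≤ K * ε * s := mul_le_mul_of_nonneg_right hKm hs
      have d2 : K * s * ε ≤ n * ε := mul_le_mul_of_nonneg_right hKs hε.le
      nlinarith
    have c2 : 2 / (r * t) ≤ ε / 16 := by
      rw [div_le_iff₀ (by positivity)]
      have d1 : 32 / (r * ε) ≤ t := hKr.trans hKt
      rw [div_le_iff₀ (by positivity)] at d1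
      linarith
    have c3 : ν (1 - vac (!c) σ) ≤ ε / 16 := hA (!c) m hAm σ hσ
    have c4 : 1 - ν (Wn k R N t c) ≤ 2 * (ε / 16) := by
      have d1 : ν (Wn k R N t c) ≥ 1 - ν (kap R) - ε / 16 := hnW
      linarith
    rw [hη] at b ⊢
    linarith
  have hsum := Finset.sum_le_sum fun σ hσ => Finset.sum_le_sum fun τ hτ => hstep σ hσ τ hτ
  simp only [Finset.sum_add_distrib, Finset.sum_const, nsmul_eq_mul, card_Sc,
    ← Finset.mul_sum] at hsum
  have hm0 : (0 : ℝ) < m + 1 := by linarith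
  have hn0 : (0 : ℝ) < n + 1 := by linarith
  have hmn1 : (m : ℝ) * n ≤ (m + 1) * (n + 1) :=
    mul_le_mul (by linarith) (by linarith) (by linarith) (by linarith)
  have f1 : ((n : ℝ) + 1) * ∑ σ ∈ Sc (!c) m, ν (Q k (!c) N s σ) ≤ (n + 1) * (δ * (m + 1)) :=
    mul_le_mul_of_nonneg_left e1 hn0.le
  have f2 : ε / 16 * ((m : ℝ) * n) ≤ ε / 16 * ((m + 1) * (n + 1)) :=
    mul_le_mul_of_nonneg_left hmn1 (by positivity)
  have f3 : ((m : ℝ) + 1) * ∑ τ ∈ Sc c n, ν (Q k c N t τ)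
      ≤ (m + 1) * ((δ + ε) * (n + 1)) := by
    have g1 : 0 < ((m : ℝ) + 1) * (n + 1) := mul_pos hm0 hn0
    have g2 : 0 < ε * (((m : ℝ) + 1) * (n + 1)) := mul_pos hε g1
    linarith
  exact le_of_mul_le_mul_left f3 hm0

/-- BAS. -/
theorem bas (h1 : MarStmt) (h2 : PntStmt) : BasStmt := by
  intro k ν c0 β hc0 hβ hk hν ε hε
  obtain ⟨R, hkapR⟩ := hν.kap (ε / 16) (by positivity)
  have hR0 : (0 : ℝ) ≤ R := Nat.cast_nonneg _
  set r : ℝ := c0 * (2 * R + 1 : ℝ) ^ (-β) with hrdef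
  have hr : 0 < r := mul_pos hc0 (Real.rpow_pos_of_pos (by positivity) _)
  have hpr : ∀ n : ℕ, 1 ≤ n → n ≤ 2 * R → r ≤ k.p (-(n : ℤ)) := by
    intro n hn hnR
    refine kern_lb hc0 hβ hk (by omega) ?_
    have : (n : ℝ) ≤ 2 * R := by exact_mod_cast hnR
    push_cast
    linarith
  set η : ℝ := ε / (16 * (2 * R + 1)) with hη
  have hη0 : 0 < η := by positivity
  have hηR : (2 * R + 1) * η = ε / 16 := by
    rw [hη]; field_simp
  set B : ℝ := c0 * 4 ^ (-β) with hB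
  have hB0 : 0 < B := mul_pos hc0 (Real.rpow_pos_of_pos (by norm_num) _)
  set W : ℝ := (2 * R + 1) ^ 2 with hW
  set K : ℝ := max (2 * R + 2) (max (32 / (r * ε)) (16 * W / (4 * η * ε * B))) with hK
  have hKR : (2 * R + 2 : ℝ) ≤ K := le_max_left _ _
  have hKr : 32 / (r * ε) ≤ K := (le_max_left _ _).trans (le_max_right _ _)
  have hKW : 16 * W / (4 * η * ε * B) ≤ K := (le_max_right _ _).trans (le_max_right _ _)
  have hK1 : 1 ≤ K := by linarith
  refine ⟨K, hK1, ?_⟩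
  intro c n t hKn hKt hKe
  have hn1 : (1 : ℝ) ≤ n := hK1.trans hKn
  have ht0 : 0 < t := by linarith
  have hn2R : (2 * R + 2 : ℝ) ≤ n := by linarith
  have hn2R' : (2 * R + 2 : ℤ) ≤ n := by exact_mod_cast hn2R
  have hen := h1.energy k ν hν.inv R t ht0
  have hwin := h1.window k ν hν R t (ε / 16) ht0 (by positivity)
  filter_upwards [hen, hwin, eventually_ge_atTop (2 * n + R + 1)] with N e2 e3 hN
  have hRN : R < N := by omega
  have hSn : Sc c n ⊆ box N := Sc_sub_box (by omega)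
  have hSR : box R ⊆ box N := box_mono hRN.le
  have hnW := e3 c
  set q : ℝ := c0 * (4 * n) ^ (-β) with hq
  have hq0 : 0 < q := mul_pos hc0 (Real.rpow_pos_of_pos (by positivity) _)
  have hker : ∀ σ ∈ box R, ∀ τ ∈ Sc c n, q ≤ k.p (if c then τ - σ else σ - τ) := by
    intro σ hσ τ hτ
    rw [mem_box, abs_le] at hσ
    cases c
    · simp only [mem_Sc_false] at hτ
      simp only [Bool.false_eq_true, if_false]
      refine kern_lb hc0 hβ hk (by omega) ?_
      have : -(σ - τ) ≤ 4 * (n : ℤ) := by omega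
      exact_mod_cast this
    · simp only [mem_Sc_true] at hτ
      simp only [if_true]
      refine kern_lb hc0 hβ hk (by omega) ?_
      have : -(τ - σ) ≤ 4 * (n : ℤ) := by omega
      exact_mod_cast this
  have hE := (esum hν.inv.1 c (hR k R N t) hSR hSn hker).trans (e2 c)
  have hsc := scale_q (X := (1 : ℝ)) hc0 (by linarith : (0 : ℝ) < n)
    (by rw [mul_one]; exact hKe : K * (n : ℝ) ^ (β - 1) ≤ t * 1)
  have hEs := en_small (W := W) hq0 ht0 hη0 hε hE hsc (by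
    rw [div_le_iff₀ (by positivity)] at hKW
    linarith)
  rw [Finset.sum_comm] at hEs
  have hstep : ∀ τ ∈ Sc c n, ν (Q k c N t τ) ≤ ε / 2
      + 1 / (4 * η) * ∑ σ ∈ box R, ν (Ec c (hR k R N t) σ τ) := by
    intro τ hτ
    have a2 := Sc_abs hτ
    have b := base_int h2 hν (η := η) (c := c) hRN ht0 hr hη0 hpr (hSn hτ) (by omega)
    have c2 : 2 / (r * t) ≤ ε / 16 := by
      rw [div_le_iff₀ (by positivity)]
      have d1 : 32 / (r * ε) ≤ t := hKr.trans hKt
      rw [div_le_iff₀ (by positivity)] at d1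
      linarith
    have c4 : 1 - ν (Wn k R N t c) ≤ 2 * (ε / 16) := by
      have d1 : ν (Wn k R N t c) ≥ 1 - ν (kap R) - ε / 16 := hnW
      linarith
    rw [hηR] at b
    linarith
  have hsum := Finset.sum_le_sum hstep
  simp only [Finset.sum_add_distrib, Finset.sum_const, nsmul_eq_mul, card_Sc,
    ← Finset.mul_sum] at hsum
  have hn0 : (0 : ℝ) < n + 1 := by linarith
  have g2 : 0 < ε * ((n : ℝ) + 1) := mul_pos hε hn0
  linarith

end Pool.Agent.Helper54Exc.H75
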